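import Pool.Agent.H75.OM.TD

/-!
Row BIN of `omn_modules` (`MP_0f8dca_lc`): the largest term of the binomial distribution.
-/

set_option autoImplicit false

namespace Pool.Agent.H95.OMN

open Finset Pool.Agent.H75.OM

/-- the term number `i` -/
def tm (N W i : ℕ) : ℕ := W ^ i * (N - W) ^ (N - i) * N.choose i

theorem tm_step (N W i : ℕ) (hi : i < N) :
    (i + 1) * tm N W (i + 1) = W * (N - i) * (W ^ i * (N - W) ^ (N - (i + 1)) * N.choose i) ∧
    (i + 1) * tm N W i = (i + 1) * (N - W) * (W ^ i * (N - W) ^ (N - (i + 1)) * N.choose i) := by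
  have h1 := Nat.choose_succ_right_eq N i
  have h2 : N - i = N - (i + 1) + 1 := by omega
  unfold tm
  constructor
  · calc (i + 1) * (W ^ (i + 1) * (N - W) ^ (N - (i + 1)) * N.choose (i + 1)) =
        W ^ (i + 1) * (N - W) ^ (N - (i + 1)) * (N.choose (i + 1) * (i + 1)) := by ring
      _ = _ := by rw [h1]; ring
  · have h3 : (N - W) ^ (N - i) = (N - W) ^ (N - (i + 1)) * (N - W) := by
      rw [h2, pow_succ]
    rw [h3]
    ring

theorem tm_up (N W i : ℕ) (hW : W ≤ N) (hi : i < W) : tm N W i ≤ tm N W (i + 1) := by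
  obtain ⟨h1, h2⟩ := tm_step N W i (by omega)
  refine Nat.le_of_mul_le_mul_left ?_ (Nat.succ_pos i)
  rw [Nat.succ_eq_add_one, h1, h2]
  refine Nat.mul_le_mul_right _ ?_
  exact Nat.mul_le_mul (by omega) (by omega)

theorem tm_down (N W i : ℕ) (hi : W ≤ i) (hi' : i < N) : tm N W (i + 1) ≤ tm N W i := by
  obtain ⟨h1, h2⟩ := tm_step N W i hi'
  refine Nat.le_of_mul_le_mul_left ?_ (Nat.succ_pos i)
  rw [Nat.succ_eq_add_one, h1, h2]
  refine Nat.mul_le_mul_right _ ?_
  exact Nat.mul_le_mul (by omega) (by omega)

theorem tm_le (N W i : ℕ) (hW : W ≤ N) (hi : i ≤ N) : tm N W i ≤ tm N W W := by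
  rcases le_total i W with h | h
  · have key : ∀ k, i + k ≤ W → tm N W i ≤ tm N W (i + k) := by
      intro k
      induction k with
      | zero => intro _; exact le_rfl
      | succ k ih =>
        intro hk
        exact (ih (by omega)).trans (tm_up N W (i + k) hW (by omega))
    have := key (W - i) (by omega)
    rwa [show i + (W - i) = W by omega] at this
  · have key : ∀ k, W + k ≤ N → tm N W (W + k) ≤ tm N W W := by
      intro k
      induction k with
      | zero => intro _; exact le_rfl
      | succ k ih =>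
        intro hk
        exact (tm_down N W (W + k) (by omega) (by omega)).trans (ih (by omega))
    have := key (i - W) (by omega)
    rwa [show W + (i - W) = i by omega] at this

theorem pf_BIN : T_BIN := by
  intro N W hW
  have h1 : N ^ N = ∑ i ∈ range (N + 1), tm N W i := by
    have h2 := add_pow W (N - W) N
    rw [Nat.add_sub_cancel' hW] at h2
    exact h2
  rw [h1]
  refine (sum_le_card_nsmul (range (N + 1)) (tm N W) (tm N W W) fun i hi =>
    tm_le N W i hW (by rw [mem_range] at hi; omega)).trans (le_of_eq ?_)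
  rw [card_range, smul_eq_mul]
  unfold tm
  ring

end Pool.Agent.H95.OMN
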