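import Pool.Agent.H75.OM.TD

/-!
Row DOM of `omn_modules` (`MP_0f8dca_lc`): the correction string is dominated by random bits.
-/

set_option autoImplicit false

namespace Pool.Agent.H95.OMN

open Finset Pool.Agent.H6.NB Pool.Agent.H70.OQ Pool.Agent.H70.EH Pool.Agent.H70.EI
  Pool.Agent.H78.XQ Pool.Agent.H75.OM

/-- the number with given binary digits, as an equivalence -/
def en (n : ℕ) : (Fin n → Bool) ≃ Fin (2 ^ n) :=
  (Equiv.arrowCongr (Equiv.refl _) finTwoEquiv.symm).trans finFunctionFinEquiv

/-- a string of bits as a function on the numbers -/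
def eb {n : ℕ} (b : Fin n → Bool) : ℕ → Bool := fun i => if h : i < n then b ⟨i, h⟩ else false

theorem en_val (n : ℕ) (b : Fin n → Bool) :
    ((en n b : Fin (2 ^ n)) : ℕ) = ∑ i ∈ range n, (if eb b i then 2 ^ i else 0) := by
  rw [Finset.sum_range]
  unfold en
  rw [Equiv.trans_apply, finFunctionFinEquiv_apply]
  refine sum_congr rfl fun i _ => ?_
  unfold eb
  rw [dif_pos i.2]
  simp only [Equiv.arrowCongr_apply, Function.comp, Equiv.refl_symm, Equiv.refl_apply, Fin.eta]
  cases b i <;> simp [finTwoEquiv]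

theorem cnt_true (n W : ℕ) (hW : W ≤ 2 ^ n) :
    (univ.filter fun b : Fin n → Bool => thr n W (eb b) = true).card = W := by
  have h1 : (univ.filter fun b : Fin n → Bool => thr n W (eb b) = true).card =
      (univ.filter fun k : Fin (2 ^ n) => (k : ℕ) < W).card := by
    refine Finset.card_equiv (en n) fun b => ?_
    rw [mem_filter, mem_filter, en_val]
    unfold thr
    simp
  rw [h1]
  have h2 : ((univ.filter fun k : Fin (2 ^ n) => (k : ℕ) < W).map Fin.valEmbedding) = range W := by
    ext k
    rw [mem_map, mem_range]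
    constructor
    · rintro ⟨a, ha, rfl⟩
      exact (mem_filter.1 ha).2
    · intro hk
      exact ⟨⟨k, by omega⟩, mem_filter.2 ⟨mem_univ _, hk⟩, rfl⟩
  rw [← card_map, h2, card_range]

theorem cnt_false (n W : ℕ) (hW : W ≤ 2 ^ n) :
    (univ.filter fun b : Fin n → Bool => thr n W (eb b) = false).card = 2 ^ n - W := by
  have h1 := cnt_true n W hW
  have h2 := Finset.card_filter_add_card_filter_not (s := (univ : Finset (Fin n → Bool)))
    (fun b => thr n W (eb b) = true)
  rw [h1, card_univ] at h2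
  have h3 : Fintype.card (Fin n → Bool) = 2 ^ n := by simp
  rw [h3] at h2
  simp only [Bool.not_eq_true] at h2
  omega

theorem prob (n W : ℕ) (hW : W ≤ 2 ^ n) (c : (Fin n → Bool) → Bool) (hc : nt c = W) :
    mn (fun y : (Fin n → Bool) × Fin n → Bool => bi (decide (c =
      crs n W fun z i => if h : i < n then y (z, ⟨i, h⟩) else false))) =
      ((W : ℝ) ^ W * ((2 ^ n - W : ℕ) : ℝ) ^ (2 ^ n - W)) / ((2 ^ n : ℕ) : ℝ) ^ 2 ^ n := by
  unfold mn
  have hcard : Fintype.card ((Fin n → Bool) × Fin n) = n * 2 ^ n := by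
    simp [mul_comm]
  rw [hcard, pow_mul]
  push_cast
  congr 1
  have h1 : ∀ y : (Fin n → Bool) × Fin n → Bool, bi (decide (c =
      crs n W fun z i => if h : i < n then y (z, ⟨i, h⟩) else false)) =
      ∏ z, bi (decide (thr n W (eb (fun i => y (z, i))) = c z)) := by
    intro y
    unfold bi
    by_cases h : c = crs n W fun z i => if h : i < n then y (z, ⟨i, h⟩) else false
    · rw [decide_eq_true h, if_pos rfl]
      rw [eq_comm]
      refine prod_eq_one fun z _ => ?_
      have h2 := congrFun h z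
      rw [if_pos]
      rw [decide_eq_true_eq]
      exact h2.symm
    · rw [decide_eq_false h, if_neg (by simp)]
      have h2 : ∃ z, ¬ thr n W (eb (fun i => y (z, i))) = c z := by
        by_contra h3
        push Not at h3
        exact h (funext fun z => (h3 z).symm)
      obtain ⟨z, hz⟩ := h2
      rw [eq_comm]
      refine prod_eq_zero (mem_univ z) ?_
      rw [decide_eq_false hz, if_neg (by simp)]
  simp_rw [h1]
  rw [← Equiv.sum_comp (Equiv.curry (Fin n → Bool) (Fin n) Bool).symm]
  have h3 := Finset.prod_univ_sum (fun _ : Fin n → Bool => (univ : Finset (Fin n → Bool)))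
    (fun z b => bi (decide (thr n W (eb b) = c z)))
  rw [Fintype.piFinset_univ] at h3
  refine Eq.trans ?_ (h3.symm.trans ?_)
  · rfl
  · have h4 : ∀ z, ∑ b : Fin n → Bool, bi (decide (thr n W (eb b) = c z)) =
        if c z = true then (W : ℝ) else ((2 ^ n - W : ℕ) : ℝ) := by
      intro z
      have h5 : ∀ a : Bool, ∑ b : Fin n → Bool, bi (decide (thr n W (eb b) = a)) =
          ((univ.filter fun b : Fin n → Bool => thr n W (eb b) = a).card : ℝ) := by
        intro a
        rw [card_filter]
        push_cast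
        refine sum_congr rfl fun b _ => ?_
        unfold bi
        simp
      rw [h5]
      cases hz : c z with
      | true => rw [if_pos rfl, cnt_true n W hW]
      | false => rw [if_neg (by simp), cnt_false n W hW]
    simp_rw [h4]
    rw [prod_ite, prod_const, prod_const]
    have h6 : (univ.filter fun z => c z = true).card = W := hc
    have h7 := Finset.card_filter_add_card_filter_not (s := (univ : Finset (Fin n → Bool)))
      (fun z => c z = true)
    rw [h6, card_univ] at h7
    have h8 : Fintype.card (Fin n → Bool) = 2 ^ n := by simp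
    rw [h8] at h7
    rw [h6, show (univ.filter fun z => ¬ c z = true).card = 2 ^ n - W by omega]

theorem nt_le {n : ℕ} (c : (Fin n → Bool) → Bool) : nt c ≤ 2 ^ n := by
  unfold nt
  refine (card_filter_le _ _).trans (le_of_eq ?_)
  simp

theorem pf_DOM (h1 : T_BIN) (h2 : Pool.Agent.H78.XQ.T_CWS) (h3 : Pool.Agent.H70.EH.T_MUV) :
    T_DOM := by
  intro q l R n b c
  have hmv : 0 ≤ ∏ u, mv b q (c.1 u) := prod_nonneg fun u _ => (h3 b q).1 _
  unfold mB
  split_ifs with hok
  · have hW := nt_le c.2
    have hfit : (nt c.2 : ℝ) / 2 ^ n = (if b then 1 / 2 else 3 / 2) - kap q R c.1 := hok.2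
    have hwt : wt0 q R n b c.1 = nt c.2 := by
      have hex : ∃ w : ℕ, w ≤ 2 ^ n ∧
          (w : ℝ) / 2 ^ n = (if b then 1 / 2 else 3 / 2) - kap q R c.1 := ⟨nt c.2, hW, hfit⟩
      unfold wt0
      rw [dif_pos hex]
      have h4 := hex.choose_spec.2.trans hfit.symm
      have h5 : (0 : ℝ) < 2 ^ n := by positivity
      rw [div_left_inj' h5.ne'] at h4
      exact_mod_cast h4
    rw [hwt, prob n (nt c.2) hW c.2 rfl]
    have hcw := h2 (Fin n → Bool) (fun _ => none) (nt c.2) (by
      unfold nv
      simp)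
    have hn1 : nv (fun _ : Fin n → Bool => (none : Option Bool)) (some true) = 0 := by
      unfold nv
      simp
    have hn2 : nv (fun _ : Fin n → Bool => (none : Option Bool)) none = 2 ^ n := by
      unfold nv
      simp
    rw [hn1, hn2, Nat.sub_zero] at hcw
    rw [hcw]
    have hb := h1 (2 ^ n) (nt c.2) hW
    have hC : 0 < (2 ^ n).choose (nt c.2) := Nat.choose_pos hW
    have hb' : (((2 ^ n : ℕ) : ℝ)) ^ 2 ^ n ≤ (((2 ^ n : ℕ) : ℝ) + 1) *
        (((2 ^ n).choose (nt c.2) : ℝ) * ((nt c.2 : ℝ) ^ nt c.2 *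
          ((2 ^ n - nt c.2 : ℕ) : ℝ) ^ (2 ^ n - nt c.2))) := by
      exact_mod_cast hb
    set A : ℝ := (nt c.2 : ℝ) ^ nt c.2 * ((2 ^ n - nt c.2 : ℕ) : ℝ) ^ (2 ^ n - nt c.2) with hA
    set N : ℝ := ((2 ^ n : ℕ) : ℝ) with hN
    have hN0 : 0 < N := by
      rw [hN]
      positivity
    have hN1 : (2 : ℝ) ^ n + 1 = N + 1 := by
      rw [hN]
      push_cast
      ring
    have hC' : (0 : ℝ) < ((2 ^ n).choose (nt c.2) : ℝ) := by exact_mod_cast hC
    rw [hN1]
    have h6 : 1 / ((2 ^ n).choose (nt c.2) : ℝ) ≤ (N + 1) * (A / N ^ 2 ^ n) := by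
      rw [div_le_iff₀ hC', mul_div_assoc', div_mul_eq_mul_div, le_div_iff₀ (by positivity), one_mul]
      refine hb'.trans (le_of_eq ?_)
      ring
    calc (∏ u, mv b q (c.1 u)) / ((2 ^ n).choose (nt c.2) : ℝ) =
          (∏ u, mv b q (c.1 u)) * (1 / ((2 ^ n).choose (nt c.2) : ℝ)) := by ring
      _ ≤ (∏ u, mv b q (c.1 u)) * ((N + 1) * (A / N ^ 2 ^ n)) :=
          mul_le_mul_of_nonneg_left h6 hmv
      _ = _ := by ring
  · refine mul_nonneg (by positivity) (mul_nonneg hmv ?_)
    unfold mn
    refine div_nonneg (sum_nonneg fun y _ => ?_) (by positivity)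
    unfold bi
    split_ifs <;> norm_num

end Pool.Agent.H95.OMN
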