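import Pool.Agent.H75.OM.TC

/-!
Row TST of `omn_modules` (`MP_0f8dca_lc`): circuits for the comparison of strings.
-/

set_option autoImplicit false

namespace Pool.Agent.H95.OMN

open Finset Pool.Agent.H6.NB Pool.Agent.H70.OQ Pool.Agent.H70.EH Pool.Agent.H70.EI
  Pool.Agent.H78.XQ Pool.Agent.H75.OM

theorem Cm_mono {n s s' : ℕ} {f : List Bool → Bool} (h : s ≤ s') (hf : Cm n s f) : Cm n s' f := by
  obtain ⟨C, h1, h2, h3, h4⟩ := hf
  exact ⟨C, h1, h2, h3.trans h, h4⟩

theorem Cm_congr {n s : ℕ} {f f' : List Bool → Bool}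
    (h : ∀ x : List Bool, x.length = n → f x = f' x) (hf : Cm n s f) : Cm n s f' := by
  obtain ⟨C, h1, h2, h3, h4⟩ := hf
  exact ⟨C, h1, h2, h3, fun x hx => (h4 x hx).trans (h x hx)⟩

/-- a bit agrees with a condition -/
def Rb (o : Option Bool) (b : Bool) : Prop := ∀ a, o = some a → b = a

/-- the test of one condition -/
def gt (c : ℕ → Option Bool) (j : ℕ) (x : List Bool) : Bool :=
  match c j with
  | none => true
  | some true => x.getD j false
  | some false => !x.getD j false

theorem gt_iff (c : ℕ → Option Bool) (j : ℕ) (x : List Bool) :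
    gt c j x = true ↔ Rb (c j) (x.getD j false) := by
  unfold gt Rb
  rcases h : c j with _ | b
  · simp
  · cases b <;> simp

theorem gt_cm (h1 : T_CMC) (h2 : Pool.Agent.H75.OM.T_CMB) (c : ℕ → Option Bool) (n j : ℕ) : Cm n 3 (gt c j) := by
  obtain ⟨p1, p2, p3, -⟩ := h2
  rcases h : c j with _ | b
  · refine Cm_congr (fun x _ => ?_) (Cm_mono (by norm_num) (p2 n true))
    simp [gt, h]
  · cases b with
    | true =>
      refine Cm_congr (fun x _ => ?_) (Cm_mono (by norm_num) (p1 n j))
      simp [gt, h]
    | false =>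
      have h3 := h1 n 1 1 (fun _ => 2) _ (fun _ x => x.getD j false) p3 fun _ _ => p1 n j
      refine Cm_congr (fun x _ => ?_) (Cm_mono (by simp) h3)
      simp [gt, h]

theorem conds (h1 : T_CMC) (h2 : Pool.Agent.H75.OM.T_CMB) (h3 : T_CMG) (m : ℕ) (c : ℕ → Option Bool)
    (f : List Bool → Bool)
    (hf : ∀ w : List Bool, w.length = m → (f w = true ↔ ∀ i < m, Rb (c i) (w.getD i false))) :
    Cm m (20 * m + 20) f := by
  have h4 := h1 m m (10 * m + 2) (fun _ => 3) _ (fun j x => gt c j x) (h3 m).1
    fun j _ => gt_cm h1 h2 c m j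
  refine Cm_congr (fun x hx => ?_) (Cm_mono ?_ h4)
  · rw [Bool.eq_iff_iff, hf x hx, List.all_eq_true]
    constructor
    · intro h i hi
      rw [← gt_iff]
      exact h _ (List.mem_map.2 ⟨i, List.mem_range.2 hi, rfl⟩)
    · intro h b hb
      obtain ⟨i, hi, rfl⟩ := List.mem_map.1 hb
      exact (gt_iff c i x).2 (h i (List.mem_range.1 hi))
  · rw [sum_const, card_range, smul_eq_mul]
    omega

/-- the test of a pattern -/
theorem pat (h1 : T_CMC) (h2 : Pool.Agent.H75.OM.T_CMB) (h3 : T_CMG) (m : ℕ) (q : List (Option Bool))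
    (f : List Bool → Bool) (hf : ∀ w : List Bool, f w = true ↔ List.Forall₂ Rb q w) :
    Cm m (20 * m + 20) f := by
  by_cases hq : q.length = m
  · refine conds h1 h2 h3 m (fun i => q.getD i none) f fun w hw => ?_
    rw [hf, List.forall₂_iff_get]
    constructor
    · rintro ⟨-, h⟩ i hi
      have := h i (by omega) (by omega)
      rw [List.getD_eq_getElem _ _ (by omega), List.getD_eq_getElem _ _ (by omega)]
      simpa using this
    · intro h
      refine ⟨by omega, fun i hi hi' => ?_⟩
      have := h i (by omega)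
      rw [List.getD_eq_getElem _ _ (by omega), List.getD_eq_getElem _ _ (by omega)] at this
      simpa using this
  · refine Cm_congr (fun x hx => ?_) (Cm_mono (by omega) (h2.2.1 m false))
    symm
    rw [← Bool.not_eq_true, hf]
    intro h
    exact hq (h.length_eq.trans hx)

theorem Rb_some (a b : Bool) : Rb (some a) b ↔ b = a := by
  unfold Rb
  constructor
  · intro h
    exact h a rfl
  · rintro rfl a h
    exact Option.some.inj h

theorem Rb_none (b : Bool) : Rb none b := by
  intro a h
  exact absurd h (by simp)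

theorem fa_some (t : List Bool) (q : List (Option Bool)) (w : List Bool) :
    List.Forall₂ Rb (t.map some ++ q) w ↔ ∃ w', w = t ++ w' ∧ List.Forall₂ Rb q w' := by
  induction t generalizing w with
  | nil => simp
  | cons a t ih =>
    rw [List.map_cons, List.cons_append]
    constructor
    · intro h
      rcases h with _ | ⟨h1, h2⟩
      rename_i b w₁
      obtain ⟨w', rfl, h3⟩ := (ih _).1 h2
      rw [Rb_some] at h1
      exact ⟨w', by rw [h1, List.cons_append], h3⟩
    · rintro ⟨w', rfl, h3⟩
      rw [List.cons_append]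
      exact List.Forall₂.cons ((Rb_some _ _).2 rfl) ((ih _).2 ⟨w', rfl, h3⟩)

theorem fa_eq (t w : List Bool) : List.Forall₂ Rb (t.map some) w ↔ t = w := by
  have h := fa_some t [] w
  rw [List.append_nil] at h
  rw [h]
  constructor
  · rintro ⟨w', rfl, h2⟩
    rw [List.forall₂_nil_left_iff.1 h2, List.append_nil]
  · rintro rfl
    exact ⟨[], by simp, List.Forall₂.nil⟩

/-- the pattern of a doubled string of length `r` and a tail -/
def pz : ℕ → List (Option Bool) → List (Option Bool)
  | 0, T => T
  | r + 1, T => some true :: none :: pz r T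

theorem fa_pz (r : ℕ) (t w : List Bool) : List.Forall₂ Rb (pz r (t.map some)) w ↔
    ∃ z : List Bool, z.length = r ∧ w = dbl z ++ t := by
  induction r generalizing w with
  | zero =>
    show List.Forall₂ Rb (t.map some) w ↔ _
    rw [fa_eq]
    constructor
    · rintro rfl
      exact ⟨[], rfl, rfl⟩
    · rintro ⟨z, hz, rfl⟩
      rw [List.length_eq_zero_iff.1 hz]
      rfl
  | succ r ih =>
    show List.Forall₂ Rb (some true :: none :: pz r (t.map some)) w ↔ _
    constructor
    · intro h
      rcases h with _ | ⟨h1, h2⟩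
      rcases h2 with _ | ⟨-, h3⟩
      rename_i a b w₁
      rw [Rb_some] at h1
      obtain ⟨z, hz, rfl⟩ := (ih _).1 h3
      refine ⟨b :: z, by rw [List.length_cons, hz], ?_⟩
      rw [h1]
      rfl
    · rintro ⟨z, hz, rfl⟩
      rcases z with _ | ⟨b, z⟩
      · simp at hz
      · have e : dbl (b :: z) ++ t = true :: b :: (dbl z ++ t) := rfl
        rw [e]
        refine List.Forall₂.cons ((Rb_some _ _).2 rfl) (List.Forall₂.cons (Rb_none b) ?_)
        exact (ih _).2 ⟨z, by simpa using hz, rfl⟩

theorem isW_iff (c : List Bool) (r : ℕ) (w : List Bool) : IsW c r w ↔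
    List.Forall₂ Rb ((dbl c ++ [false]).map some ++ pz r ([false, true, true].map some)) w := by
  rw [fa_some]
  unfold IsW wps code
  constructor
  · rintro ⟨z, hz, rfl⟩
    refine ⟨dbl z ++ [false, true, true], ?_, (fa_pz r _ _).2 ⟨z, hz, rfl⟩⟩
    rw [List.append_assoc]
    rfl
  · rintro ⟨w', rfl, h⟩
    obtain ⟨z, hz, rfl⟩ := (fa_pz r _ _).1 h
    refine ⟨z, hz, ?_⟩
    rw [List.append_assoc]
    rfl

open Classical in
theorem pf_TST (h1 : T_CMC) (h2 : Pool.Agent.H75.OM.T_CMB) (h3 : T_CMG) : T_TST := by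
  intro m r c
  constructor
  · refine pat h1 h2 h3 m (c.map some) _ fun w => ?_
    rw [decide_eq_true_eq, fa_eq]
  · refine pat h1 h2 h3 m
      ((dbl c ++ [false]).map some ++ pz r ([false, true, true].map some)) _ fun w => ?_
    rw [decide_eq_true_eq, isW_iff]

end Pool.Agent.H95.OMN
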