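import Pool.Agent.H75.OM.TD

/-!
Row UP1 of `omn_modules` (`MP_0f8dca_lc`): random bits with many names, and a domination for each
coordinate.
-/

set_option autoImplicit false

namespace Pool.Agent.H95.OMN

open Finset Pool.Agent.H6.NB Pool.Agent.H70.OQ Pool.Agent.H70.EH Pool.Agent.H70.EI
  Pool.Agent.H78.XQ Pool.Agent.H75.OM

section

variable {I : Type} [Fintype I] [DecidableEq I] {T : I → Type} [∀ i, Fintype (T i)]
  {Z : I → Type} [∀ i, Fintype (Z i)] [∀ i, DecidableEq (Z i)]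

open Classical in
/-- the law of `τ` -/
noncomputable def kp (v : ∀ i, T i → ℝ) (τ : ∀ i, T i → (Z i → Bool) → T i) (i : I) (t : T i) : ℝ :=
  ∑ p, v i p * mn fun z => if τ i p z = t then 1 else 0

theorem mn_nonneg {V : Type} [Fintype V] [DecidableEq V] {F : (V → Bool) → ℝ}
    (h : ∀ y, 0 ≤ F y) : 0 ≤ mn F :=
  div_nonneg (sum_nonneg fun y _ => h y) (by positivity)

omit [Fintype I] [DecidableEq I] in
theorem kp_nonneg (v : ∀ i, T i → ℝ) (τ : ∀ i, T i → (Z i → Bool) → T i)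
    (hv : ∀ i p, 0 ≤ v i p) (i : I) (t : T i) : 0 ≤ kp v τ i t := by
  classical
  unfold kp
  refine sum_nonneg fun p _ => mul_nonneg (hv i p) (mn_nonneg fun z => ?_)
  split_ifs <;> norm_num

omit [Fintype I] [DecidableEq I] [∀ i, Fintype (T i)] [∀ i, Fintype (Z i)]
  [∀ i, DecidableEq (Z i)] in
/-- splitting a function with values in pairs -/
theorem split_sum (F : (∀ i, T i) → (∀ i, Z i → Bool) → ℝ) [Fintype (∀ i, T i)]
    [Fintype (∀ i, Z i → Bool)] [Fintype (∀ i, T i × (Z i → Bool))] :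
    ∑ R : (∀ i, T i × (Z i → Bool)), F (fun i => (R i).1) (fun i => (R i).2) =
      ∑ Q : (∀ i, T i), ∑ z : (∀ i, Z i → Bool), F Q z := by
  rw [← Fintype.sum_prod_type']
  exact Fintype.sum_equiv ⟨fun R => (fun i => (R i).1, fun i => (R i).2),
    fun a i => (a.1 i, a.2 i), fun R => rfl, fun a => rfl⟩ _ _ fun R => rfl

theorem law (v : ∀ i, T i → ℝ) (τ : ∀ i, T i → (Z i → Bool) → T i) (Ψ : (∀ i, T i) → ℝ) :
    ∑ P : (∀ i, T i), (∏ i, kp v τ i (P i)) * Ψ P =
      ∑ Q : (∀ i, T i), (∏ i, v i (Q i)) *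
        ((∑ z : (∀ i, Z i → Bool), Ψ fun i => τ i (Q i) (z i)) /
          ∏ i, (2 : ℝ) ^ Fintype.card (Z i)) := by
  classical
  have h1 : ∀ (i : I) (t : T i), kp v τ i t = ∑ a : T i × (Z i → Bool),
      (v i a.1 / 2 ^ Fintype.card (Z i)) * (if τ i a.1 a.2 = t then 1 else 0) := by
    intro i t
    unfold kp mn
    rw [Fintype.sum_prod_type]
    refine sum_congr rfl fun p _ => ?_
    rw [sum_div, mul_sum]
    refine sum_congr rfl fun z _ => ?_
    ring
  have h2 : ∀ P : (∀ i, T i), ∏ i, kp v τ i (P i) = ∑ R : (∀ i, T i × (Z i → Bool)),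
      (∏ i, (v i (R i).1 / 2 ^ Fintype.card (Z i))) *
        (if P = (fun i => τ i (R i).1 (R i).2) then 1 else 0) := by
    intro P
    simp_rw [h1]
    rw [Finset.prod_univ_sum, Fintype.piFinset_univ]
    refine sum_congr rfl fun R _ => ?_
    rw [prod_mul_distrib]
    congr 1
    by_cases h : P = fun i => τ i (R i).1 (R i).2
    · rw [if_pos h]
      refine prod_eq_one fun i _ => ?_
      rw [h, if_pos rfl]
    · rw [if_neg h]
      have h3 : ∃ i, ¬ τ i (R i).1 (R i).2 = P i := by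
        by_contra h4
        push Not at h4
        exact h (funext fun i => (h4 i).symm)
      obtain ⟨i, hi⟩ := h3
      exact prod_eq_zero (mem_univ i) (if_neg hi)
  calc ∑ P : (∀ i, T i), (∏ i, kp v τ i (P i)) * Ψ P =
        ∑ P : (∀ i, T i), ∑ R : (∀ i, T i × (Z i → Bool)),
          (∏ i, (v i (R i).1 / 2 ^ Fintype.card (Z i))) *
            (if P = (fun i => τ i (R i).1 (R i).2) then Ψ P else 0) := by
        refine sum_congr rfl fun P _ => ?_
        rw [h2, sum_mul]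
        refine sum_congr rfl fun R _ => ?_
        rw [mul_assoc]
        congr 1
        split_ifs <;> simp
    _ = ∑ R : (∀ i, T i × (Z i → Bool)), (∏ i, (v i (R i).1 / 2 ^ Fintype.card (Z i))) *
          Ψ (fun i => τ i (R i).1 (R i).2) := by
        rw [sum_comm]
        refine sum_congr rfl fun R _ => ?_
        rw [← mul_sum]
        congr 1
        rw [sum_ite_eq', if_pos (mem_univ _)]
    _ = ∑ Q : (∀ i, T i), ∑ z : (∀ i, Z i → Bool),
          (∏ i, (v i (Q i) / 2 ^ Fintype.card (Z i))) * Ψ (fun i => τ i (Q i) (z i)) :=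
        split_sum fun Q z =>
          (∏ i, (v i (Q i) / 2 ^ Fintype.card (Z i))) * Ψ (fun i => τ i (Q i) (z i))
    _ = _ := by
        refine sum_congr rfl fun Q _ => ?_
        rw [← mul_sum, prod_div_distrib]
        ring

end

theorem pf_UP1 (h1 : T_INJ) : T_UP1 := by
  intro I _ _ T _ Z _ _ G Y _ _ _ _ u v C τ ιG ιZ Φ hinj hv hC hu hΦ H
  classical
  -- the domination
  have hdom : ∀ i t, u i t ≤ C i * kp v τ i t := by
    intro i t
    have h2 := H i (fun p => if p = t then 1 else 0) fun p => by split_ifs <;> norm_num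
    have h3 : ∑ p, u i p * (if p = t then (1 : ℝ) else 0) = u i t := by
      simp
    rw [h3] at h2
    refine h2.trans (le_of_eq ?_)
    unfold kp
    congr 1
  set Ψ : (∀ i, T i) → ℝ := fun P => mn (fun g => Φ P g) with hΨ
  have hΨ0 : ∀ P, 0 ≤ Ψ P := fun P => mn_nonneg fun g => hΦ P g
  have step1 : ∑ P : (∀ i, T i), (∏ i, u i (P i)) * Ψ P ≤
      (∏ i, C i) * ∑ P : (∀ i, T i), (∏ i, kp v τ i (P i)) * Ψ P := by
    rw [mul_sum]
    refine sum_le_sum fun P _ => ?_
    rw [← mul_assoc, ← prod_mul_distrib]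
    refine mul_le_mul_of_nonneg_right ?_ (hΨ0 P)
    exact prod_le_prod (fun i _ => hu i _) fun i _ => hdom i _
  refine step1.trans (le_of_eq ?_)
  congr 1
  rw [law v τ Ψ]
  refine sum_congr rfl fun Q _ => ?_
  congr 1
  -- the mean
  have h2 := h1 (G ⊕ ((i : I) × Z i)) Y (Sum.elim ιG fun a : (i : I) × Z i => ιZ a.1 a.2)
    (fun y => Φ (fun i => τ i (Q i) fun z => y (Sum.inr ⟨i, z⟩)) fun g => y (Sum.inl g)) hinj
  refine Eq.trans ?_ h2.symm
  unfold mn
  have hcard : Fintype.card (G ⊕ ((i : I) × Z i)) = Fintype.card G + ∑ i, Fintype.card (Z i) := by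
    rw [Fintype.card_sum, Fintype.card_sigma]
  have h3 : ∑ y : (G ⊕ ((i : I) × Z i)) → Bool,
      Φ (fun i => τ i (Q i) fun z => y (Sum.inr ⟨i, z⟩)) (fun g => y (Sum.inl g)) =
      ∑ z : (∀ i, Z i → Bool), ∑ g : G → Bool, Φ (fun i => τ i (Q i) (z i)) g := by
    rw [← Fintype.sum_prod_type' (f := fun (z : ∀ i, Z i → Bool) (g : G → Bool) =>
      Φ (fun i => τ i (Q i) (z i)) g)]
    refine Fintype.sum_equiv ⟨fun y => (fun i z => y (Sum.inr ⟨i, z⟩), fun g => y (Sum.inl g)),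
      fun a => Sum.elim a.2 fun x => a.1 x.1 x.2, fun y => ?_, fun a => rfl⟩ _ _ fun y => rfl
    funext x
    rcases x with g | ⟨i, z⟩ <;> rfl
  rw [h3, hcard, pow_add, ← prod_pow_eq_pow_sum, hΨ]
  unfold mn
  rw [← sum_div, div_div]

end Pool.Agent.H95.OMN
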